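import Pool.Agent.Helper99.EXC.GoalsS

set_option autoImplicit false

open Finset

namespace Pool.Agent.Helper93.EXC

open Pool.Agent.Helper99.ERW
open Pool.Agent.Helper99.EXC

lemma nm_nonneg (x : Site 2) : 0 ≤ nm x := le_trans (abs_nonneg _) (le_max_left _ _)

lemma nm_add_vec (x : Site 2) (e : Dir 2) : nm (x + vec e) ≤ nm x + 1 := by
  unfold nm
  have h : ∀ l : Fin 2, |((x + vec e) l : ℝ)| ≤ |(x l : ℝ)| + 1 := by
    intro l
    have h1 : |((vec e l : ℤ) : ℝ)| ≤ 1 := by exact_mod_cast abs_vec_le e l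
    have h2 : (((x + vec e) l : ℤ) : ℝ) = (x l : ℝ) + ((vec e l : ℤ) : ℝ) := by
      rw [Pi.add_apply]
      push_cast
      ring
    rw [h2]
    exact (abs_add_le _ _).trans (by linarith)
  apply max_le
  · exact (h 0).trans (by linarith [le_max_left |(x 0 : ℝ)| |(x 1 : ℝ)|])
  · exact (h 1).trans (by linarith [le_max_right |(x 0 : ℝ)| |(x 1 : ℝ)|])

/-- Taylor estimate of the second difference. -/
lemma taylor2 (hF : FFP_stmt) (A p q : ℝ) :
    |FF (A + p) + FF (A + q) - 2 * FF A| ≤ |p + q| + p ^ 2 + q ^ 2 + |p| ^ 3 + |q| ^ 3 := by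
  obtain ⟨-, -, -, -, -, h6, h7, -, -, -, -, h12⟩ := hF
  have hp := abs_le.1 (h12 A p)
  have hq := abs_le.1 (h12 A q)
  obtain ⟨s0, s1⟩ := h6 A
  obtain ⟨t0, t1⟩ := h7 A
  have h1 : |sg A * (p + q)| ≤ |p + q| := by
    rw [abs_mul, abs_of_nonneg s0]
    exact mul_le_of_le_one_left (abs_nonneg _) s1
  have h1' := abs_le.1 h1
  have h2 : ss A * p ^ 2 / 2 ≤ p ^ 2 := by nlinarith [sq_nonneg p]
  have h3 : ss A * q ^ 2 / 2 ≤ q ^ 2 := by nlinarith [sq_nonneg q]
  have h2' : 0 ≤ ss A * p ^ 2 / 2 := by positivity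
  have h3' : 0 ≤ ss A * q ^ 2 / 2 := by positivity
  rw [abs_le]
  constructor <;> nlinarith

/-- the second differences of the truncated potential -/
lemma sd_bound (hF : FFP_stmt) {a : ℝ} {φ : Site 2 → ℝ} {κ C0 : ℝ} (hK : Ker a φ κ C0) (k : ℕ)
    (l : Fin 2) (x : Site 2) :
    |secondDiff (Phi κ φ k) l x| ≤ (C0 + 2 * C0 ^ 2 + 2 * C0 ^ 3) / (1 + nm x) ^ 2 := by
  have hC := hK.cone
  have hD : 1 ≤ 1 + nm x := by linarith [nm_nonneg x]
  set D := 1 + nm x with hDdef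
  have hD0 : 0 < D := by linarith
  set A := φ x - κ * k with hA
  set p := φ (x + vec (l, true)) - φ x with hp
  set q := φ (x + vec (l, false)) - φ x with hq
  have e : secondDiff (Phi κ φ k) l x = FF (A + p) + FF (A + q) - 2 * FF A := by
    unfold secondDiff Phi
    have e1 : φ (x + vec (l, true)) - κ * k = A + p := by rw [hA, hp]; ring
    have e2 : φ (x + vec (l, false)) - κ * k = A + q := by rw [hA, hq]; ring
    rw [e1, e2, ← hA]
    ring
  have hp1 : |p| ≤ C0 / D := hK.d1 x (l, true)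
  have hq1 : |q| ≤ C0 / D := hK.d1 x (l, false)
  have hpq : |p + q| ≤ C0 / D ^ 2 := by
    have h := hK.d2 x (l, true) (l, false)
    have e3 : x + vec (l, true) + vec (l, false) = x := by
      have : vec (l, true) + vec (l, false) = (0 : Site 2) := by
        unfold vec
        rw [← Pi.single_add]
        simp
      rw [add_assoc, this, add_zero]
    rw [e3] at h
    have e4 : φ x - φ (x + vec (l, true)) - φ (x + vec (l, false)) + φ x = -(p + q) := by
      rw [hp, hq]; ring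
    rw [e4, abs_neg] at h
    exact h
  have hCD : 0 ≤ C0 / D := by positivity
  have hpp : p ^ 2 ≤ (C0 / D) ^ 2 := by
    rw [← sq_abs p]
    exact pow_le_pow_left₀ (abs_nonneg _) hp1 2
  have hqq : q ^ 2 ≤ (C0 / D) ^ 2 := by
    rw [← sq_abs q]
    exact pow_le_pow_left₀ (abs_nonneg _) hq1 2
  have hp3 : |p| ^ 3 ≤ (C0 / D) ^ 3 := pow_le_pow_left₀ (abs_nonneg _) hp1 3
  have hq3 : |q| ^ 3 ≤ (C0 / D) ^ 3 := pow_le_pow_left₀ (abs_nonneg _) hq1 3
  have h3 : (C0 / D) ^ 3 ≤ C0 ^ 3 / D ^ 2 := by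
    rw [div_pow]
    apply div_le_div_of_nonneg_left (by positivity) (by positivity)
    exact pow_le_pow_right₀ hD (by norm_num)
  have h2 : (C0 / D) ^ 2 = C0 ^ 2 / D ^ 2 := div_pow _ _ _
  rw [e]
  refine (taylor2 hF A p q).trans ?_
  have e5 : (C0 + 2 * C0 ^ 2 + 2 * C0 ^ 3) / D ^ 2 = C0 / D ^ 2 + C0 ^ 2 / D ^ 2 + C0 ^ 2 / D ^ 2 +
      C0 ^ 3 / D ^ 2 + C0 ^ 3 / D ^ 2 := by ring
  rw [e5]
  rw [h2] at hpp hqq
  linarith

lemma Df_bound (hF : FFP_stmt) {a : ℝ} {φ : Site 2 → ℝ} {κ C0 : ℝ} (hK : Ker a φ κ C0) (k : ℕ)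
    (x : Site 2) :
    |Df (Phi κ φ k) x| ≤ (C0 + 2 * C0 ^ 2 + 2 * C0 ^ 3) / (1 + nm x) ^ 2 := by
  have h0 := abs_le.1 (sd_bound hF hK k 0 x)
  have h1 := abs_le.1 (sd_bound hF hK k 1 x)
  unfold Df
  rw [abs_le]
  constructor <;> linarith

/-- near the origin the potential is at most `κ k` -/
lemma phi_le {a : ℝ} {φ : Site 2 → ℝ} {κ C0 : ℝ} (hK : Ker a φ κ C0) (k : ℕ) (y : Site 2)
    (hy : 1 + nm y ≤ 2 ^ k * (2 : ℝ) ^ (-(C0 / κ))) : φ y ≤ κ * k := by
  have h1 := (abs_le.1 (hK.log y)).2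
  have hpos : 0 < 1 + nm y := by linarith [nm_nonneg y]
  have h2 : Real.logb 2 (1 + nm y) ≤ (k : ℝ) + -(C0 / κ) := by
    rw [Real.logb_le_iff_le_rpow (by norm_num) hpos, Real.rpow_add (by norm_num), Real.rpow_natCast]
    exact hy
  have h3 : κ * Real.logb 2 (1 + nm y) ≤ κ * ((k : ℝ) + -(C0 / κ)) :=
    mul_le_mul_of_nonneg_left h2 hK.kpos.le
  have h4 : κ * ((k : ℝ) + -(C0 / κ)) = κ * k - C0 := by
    have := hK.kpos.ne'
    field_simp
    ring
  linarith

theorem SE (hFFP : FFP_stmt) : SE_stmt := by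
  intro a φ κ C0 hK
  refine ⟨0, fun b _ => ?_⟩
  set C' := C0 + 2 * C0 ^ 2 + 2 * C0 ^ 3 with hC'
  set c := (2 : ℝ) ^ (-(C0 / κ)) with hc
  have hC := hK.cone
  have hC'0 : 0 < C' := by positivity
  have hc0 : 0 < c := Real.rpow_pos_of_pos (by norm_num) _
  have hc1 : c ≤ 1 := by
    apply Real.rpow_le_one_of_one_le_of_nonpos (by norm_num)
    have : 0 ≤ C0 / κ := div_nonneg (by linarith) hK.kpos.le
    linarith
  have hbig : C' ≤ 4 * C' / c ^ 2 := by
    rw [le_div_iff₀ (by positivity)]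
    have : c ^ 2 ≤ 1 := pow_le_one₀ hc0.le hc1
    nlinarith
  refine ⟨4 * C' / c ^ 2, 0, fun k _ x => ?_⟩
  have hD0 : 0 < 1 + nm x := by linarith [nm_nonneg x]
  have hb := Df_bound hFFP hK k x
  rw [← hC'] at hb
  constructor
  · by_cases hx : 2 + nm x ≤ 2 ^ k * c
    · have hz : Df (Phi κ φ k) x = 0 := by
        have hval : ∀ y : Site 2, nm y ≤ nm x + 1 → Phi κ φ k y = κ * k + 1 / 2 := by
          intro y hy
          have h1 : φ y ≤ κ * k := phi_le hK k y (by linarith)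
          unfold Phi
          rw [hFFP.2.2.2.1 _ (by linarith)]
        unfold Df secondDiff
        rw [hval _ (nm_add_vec x (0, true)), hval _ (nm_add_vec x (0, false)),
          hval _ (nm_add_vec x (1, true)), hval _ (nm_add_vec x (1, false)), hval x (by linarith)]
        ring
      rw [hz, abs_zero]
      positivity
    · push Not at hx
      refine hb.trans ?_
      have h1 : 2 ^ k * c ≤ 2 * (1 + nm x) := by linarith [nm_nonneg x]
      have h2 : (2 ^ k * c) ^ 2 ≤ (2 * (1 + nm x)) ^ 2 := pow_le_pow_left₀ (by positivity) h1 2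
      have h3 : (2 ^ k * c) ^ 2 = 4 ^ k * c ^ 2 := by
        rw [mul_pow, ← pow_mul, mul_comm k 2, pow_mul]
        norm_num
      rw [h3] at h2
      rw [div_div, div_le_div_iff₀ (by positivity) (by positivity)]
      nlinarith
  · refine hb.trans ?_
    exact div_le_div_of_nonneg_right hbig (by positivity)

end Pool.Agent.Helper93.EXC
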